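import Mathlib

/-!
The square-free algebra `K[x_1,…,x_n]/(x_1^2,…,x_n^2)`, its homogeneous pieces, the ideal generated
by forms with given coefficient vectors, Hilbert series, truncation of a power series, and
genericity (validity on a nonempty Zariski open set of coefficient vectors).
-/

namespace Pool.Agent.W488.SqFree

open MvPolynomial

/-- The ideal `(x_1^2, …, x_n^2)` of `K[x_1,…,x_n]`. -/
noncomputable def sqIdeal (K : Type*) [Field K] (n : ℕ) : Ideal (MvPolynomial (Fin n) K) :=
  Ideal.span (Set.range fun i : Fin n => (X i : MvPolynomial (Fin n) K) ^ 2)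

/-- The square-free algebra `K[x_1,…,x_n]/(x_1^2,…,x_n^2)`. -/
noncomputable abbrev SqAlg (K : Type*) [Field K] (n : ℕ) : Type _ := MvPolynomial (Fin n) K ⧸ sqIdeal K n

/-- The homogeneous component of degree `i` of the square-free algebra: the image of the
space of homogeneous polynomials of degree `i`. -/
noncomputable def piece (K : Type*) [Field K] (n i : ℕ) : Submodule K (SqAlg K n) :=
  (homogeneousSubmodule (Fin n) K i).map (Ideal.Quotient.mkₐ K (sqIdeal K n)).toLinearMap

/-- The square-free monomial `∏_{i ∈ s} x_i` in the square-free algebra. -/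
noncomputable def mono (K : Type*) [Field K] (n : ℕ) (s : Finset (Fin n)) : SqAlg K n :=
  ∏ i ∈ s, Ideal.Quotient.mk (sqIdeal K n) (X i)

/-- Index set of the coefficient vectors of `(f_1,…,f_r)`: a pair `(j, s)` where `s` is a
`d_j`-element set of variables, i.e. a square-free monomial of degree `d_j`. -/
abbrev CoeffIdx (n : ℕ) {r : ℕ} (d : Fin r → ℕ) : Type :=
  Σ j : Fin r, {s : Finset (Fin n) // s.card = d j}

/-- The form `f_j = ∑_{|s| = d_j} a_{j,s} x^s` of degree `d_j` with coefficient vector `a`. -/
noncomputable def form {K : Type*} [Field K] {n r : ℕ} {d : Fin r → ℕ} (a : CoeffIdx n d → K)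
    (j : Fin r) : SqAlg K n :=
  ∑ s : {s : Finset (Fin n) // s.card = d j}, a ⟨j, s⟩ • mono K n s

/-- The ideal `(f_1,…,f_r)` of the square-free algebra with coefficient vector `a`. -/
noncomputable def idealOf {K : Type*} [Field K] {n r : ℕ} {d : Fin r → ℕ} (a : CoeffIdx n d → K) :
    Ideal (SqAlg K n) :=
  Ideal.span (Set.range (form a))

/-- The Hilbert series of the quotient of the square-free algebra by the ideal `I`: the
coefficient of `t^i` is the dimension of the image of the degree `i` component. -/
noncomputable def hilbertSeries {K : Type*} [Field K] {n : ℕ} (I : Ideal (SqAlg K n)) :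
    PowerSeries ℤ :=
  PowerSeries.mk fun i =>
    (Module.finrank K ((piece K n i).map (Ideal.Quotient.mkₐ K I).toLinearMap) : ℤ)

open Classical in
/-- The truncation `⟨p⟩`: the coefficient of `t^i` is kept when all coefficients of `t^l`,
`l ≤ i`, are positive, and is `0` otherwise. -/
noncomputable def truncate (p : PowerSeries ℤ) : PowerSeries ℤ :=
  PowerSeries.mk fun i =>
    if ∀ l ≤ i, 0 < PowerSeries.coeff l p then PowerSeries.coeff i p else 0

/-- The conjectured Hilbert series `⟨(1+t)^n ∏_j (1-t^{d_j})⟩`. -/
noncomputable def expected (n : ℕ) {r : ℕ} (d : Fin r → ℕ) : PowerSeries ℤ :=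
  truncate ((1 + PowerSeries.X) ^ n * ∏ j, (1 - PowerSeries.X ^ d j))

/-- `Generic K n d P`: the property `P` of coefficient vectors of `(f_1,…,f_r)` holds on
`{a | g a ≠ 0}` for some nonzero polynomial `g`, that is (over an infinite field) on a nonempty
Zariski open subset of the coefficient space. -/
def Generic (K : Type*) [Field K] (n : ℕ) {r : ℕ} (d : Fin r → ℕ)
    (P : (CoeffIdx n d → K) → Prop) : Prop :=
  ∃ g : MvPolynomial (CoeffIdx n d) K, g ≠ 0 ∧ ∀ a, eval a g ≠ 0 → P a

section basics

variable {K : Type*} [Field K] {n : ℕ}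

theorem X_sq (i : Fin n) : (Ideal.Quotient.mk (sqIdeal K n) (X i)) ^ 2 = 0 := by
  rw [← map_pow]
  exact Ideal.Quotient.eq_zero_iff_mem.mpr (Ideal.subset_span ⟨i, rfl⟩)

theorem X_mul_mono (i : Fin n) (s : Finset (Fin n)) :
    Ideal.Quotient.mk (sqIdeal K n) (X i) * mono K n s =
      if i ∈ s then 0 else mono K n (insert i s) := by
  classical
  split_ifs with h
  · rw [mono, ← Finset.mul_prod_erase _ _ h, ← mul_assoc, ← sq, X_sq, zero_mul]
  · rw [mono, mono, Finset.prod_insert h]

theorem mono_mul_mono (s t : Finset (Fin n)) :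
    mono K n s * mono K n t = if Disjoint s t then mono K n (s ∪ t) else 0 := by
  classical
  split_ifs with h
  · rw [mono, mono, mono, Finset.prod_union h]
  · rw [Finset.not_disjoint_iff] at h
    obtain ⟨i, hs, ht⟩ := h
    rw [mono, mono, ← Finset.mul_prod_erase _ _ hs, ← Finset.mul_prod_erase _ _ ht]
    have := X_sq (K := K) i
    linear_combination ((∏ j ∈ s.erase i, Ideal.Quotient.mk (sqIdeal K n) (X j)) *
      (∏ j ∈ t.erase i, Ideal.Quotient.mk (sqIdeal K n) (X j))) * this

/-- A monomial is mapped to `0` or to a square-free monomial. -/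
theorem mk_monomial (m : Fin n →₀ ℕ) (c : K) :
    Ideal.Quotient.mk (sqIdeal K n) (monomial m c) =
      if ∀ i, m i ≤ 1 then c • mono K n m.support else 0 := by
  classical
  rw [monomial_eq]
  have hC : Ideal.Quotient.mk (sqIdeal K n) (C c) = algebraMap K (SqAlg K n) c := rfl
  rw [map_mul, hC, ← Algebra.smul_def, Finsupp.prod, map_prod]
  split_ifs with h
  · congr 1
    rw [mono]
    refine Finset.prod_congr rfl fun i hi => ?_
    have h1 : m i = 1 := le_antisymm (h i) (Nat.one_le_iff_ne_zero.mpr (Finsupp.mem_support_iff.mp hi))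
    rw [h1, pow_one]
  · push Not at h
    obtain ⟨i, hi⟩ := h
    have hs : i ∈ m.support := Finsupp.mem_support_iff.mpr (by lia)
    rw [← Finset.mul_prod_erase _ _ hs, map_pow]
    have : (Ideal.Quotient.mk (sqIdeal K n) (X i)) ^ (m i) = 0 := by
      obtain ⟨e, he⟩ : ∃ e, m i = 2 + e := ⟨m i - 2, by lia⟩
      rw [he, pow_add, X_sq, zero_mul]
    rw [this, zero_mul, smul_zero]

theorem span_mono : Submodule.span K (Set.range (mono K n)) = ⊤ := by
  rw [eq_top_iff]
  rintro x -
  obtain ⟨p, rfl⟩ := Ideal.Quotient.mk_surjective x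
  induction p using MvPolynomial.induction_on' with
  | monomial m c =>
    rw [mk_monomial]
    split_ifs
    · exact Submodule.smul_mem _ _ (Submodule.subset_span ⟨_, rfl⟩)
    · exact Submodule.zero_mem _
  | add p q hp hq =>
    rw [map_add]
    exact Submodule.add_mem _ hp hq

instance : Module.Finite K (SqAlg K n) :=
  ⟨⟨(Set.finite_range (mono K n)).toFinset, by rw [Set.Finite.coe_toFinset, span_mono]⟩⟩

theorem mono_mem_piece (s : Finset (Fin n)) : mono K n s ∈ piece K n s.card := by
  refine ⟨∏ i ∈ s, X i, ?_, ?_⟩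
  · have := IsHomogeneous.prod s (fun i => (X i : MvPolynomial (Fin n) K)) (fun _ => 1)
      (fun i _ => isHomogeneous_X K i)
    simpa using this
  · simp [mono]

/-- The coefficient functional: the linear form on the square-free algebra with prescribed
values on the square-free monomials. -/
theorem exists_functional (c : Finset (Fin n) → K) :
    ∃ φ : SqAlg K n →ₗ[K] K, ∀ s, φ (mono K n s) = c s := by
  classical
  -- the functional on polynomials
  let e : Finset (Fin n) → (Fin n →₀ ℕ) := fun s => ∑ i ∈ s, Finsupp.single i 1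
  have he : ∀ s i, e s i = if i ∈ s then 1 else 0 := by
    intro s i
    simp only [e, Finsupp.finsetSum_apply, Finsupp.single_apply]
    rw [Finset.sum_ite_eq' s i]
  have hinj : ∀ s t, e s = e t → s = t := by
    intro s t h
    ext i
    have := DFunLike.congr_fun h i
    rw [he, he] at this
    by_cases h1 : i ∈ s <;> by_cases h2 : i ∈ t <;> simp_all
  let Φ : MvPolynomial (Fin n) K →ₗ[K] K := ∑ s : Finset (Fin n), c s • lcoeff K (e s)
  have hΦ : ∀ p, Φ p = ∑ s : Finset (Fin n), c s * coeff (e s) p := by
    intro p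
    simp [Φ, LinearMap.sum_apply]
  have hker : ∀ p ∈ sqIdeal K n, Φ p = 0 := by
    intro p hp
    have key : ∀ q s, coeff (e s) (q * p) = 0 := by
      intro q s
      revert q
      refine Submodule.span_induction (p := fun p _ => ∀ q, coeff (e s) (q * p) = 0) ?_ ?_ ?_ ?_ hp
      · rintro _ ⟨i, rfl⟩ q
        have h1 : (X i : MvPolynomial (Fin n) K) ^ 2 = monomial (Finsupp.single i 2) 1 := by
          rw [X_pow_eq_monomial]
        simp only
        rw [h1, coeff_mul_monomial']
        rw [if_neg]
        intro hle
        have := hle i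
        rw [he] at this
        simp only [Finsupp.single_eq_same] at this
        split_ifs at this <;> omega
      · intro q; simp
      · intro x y _ _ hx hy q
        rw [mul_add, coeff_add, hx, hy, add_zero]
      · intro r x _ hx q
        rw [smul_eq_mul, ← mul_assoc]
        exact hx _
    have : ∀ s, coeff (e s) p = 0 := by
      intro s
      simpa using key 1 s
    rw [hΦ]
    simp [this]
  have hle : (sqIdeal K n).restrictScalars K ≤ LinearMap.ker Φ := fun p hp =>
    LinearMap.mem_ker.mpr (hker p ((Submodule.restrictScalars_mem K _ _).mp hp))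
  refine ⟨(Submodule.liftQ ((sqIdeal K n).restrictScalars K) Φ hle) ∘ₗ
    (Submodule.Quotient.restrictScalarsEquiv K (sqIdeal K n)).symm.toLinearMap, ?_⟩
  intro s
  have h1 : mono K n s = Submodule.Quotient.mk (p := sqIdeal K n) (∏ i ∈ s, X i) := by
    rw [mono, ← map_prod]
    rfl
  have h3 : ((Submodule.liftQ ((sqIdeal K n).restrictScalars K) Φ hle) ∘ₗ
    (Submodule.Quotient.restrictScalarsEquiv K (sqIdeal K n)).symm.toLinearMap)
      (Submodule.Quotient.mk (p := sqIdeal K n) (∏ i ∈ s, X i)) = Φ (∏ i ∈ s, X i) := rfl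
  rw [h1, h3, hΦ]
  have h2 : (∏ i ∈ s, X i : MvPolynomial (Fin n) K) = monomial (e s) 1 := by
    simp only [e]
    rw [monomial_sum_one]
    rfl
  rw [h2]
  simp only [coeff_monomial]
  rw [Finset.sum_eq_single s]
  · simp
  · intro t _ hts
    rw [if_neg (fun h => hts (hinj _ _ h).symm), mul_zero]
  · intro h
    exact absurd (Finset.mem_univ s) h

/-- A square-free monomial outside `I` makes the Hilbert function of the quotient positive. -/
theorem one_le_coeff {I : Ideal (SqAlg K n)} {s : Finset (Fin n)} (h : mono K n s ∉ I) :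
    1 ≤ PowerSeries.coeff s.card (hilbertSeries I) := by
  rw [hilbertSeries, PowerSeries.coeff_mk]
  have hne : (piece K n s.card).map (Ideal.Quotient.mkₐ K I).toLinearMap ≠ ⊥ := by
    intro hbot
    have hmem : Ideal.Quotient.mk I (mono K n s) ∈
        (piece K n s.card).map (Ideal.Quotient.mkₐ K I).toLinearMap :=
      ⟨mono K n s, mono_mem_piece s, rfl⟩
    rw [hbot, Submodule.mem_bot] at hmem
    exact h (Ideal.Quotient.eq_zero_iff_mem.mp hmem)
  have : 0 < Module.finrank K ((piece K n s.card).map (Ideal.Quotient.mkₐ K I).toLinearMap) := by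
    rw [Module.finrank_pos_iff, Submodule.nontrivial_iff_ne_bot]
    exact hne
  exact_mod_cast this

/-- A functional that vanishes on all products of a generator with a square-free monomial
vanishes on the ideal. -/
theorem functional_eq_zero {r : ℕ} {d : Fin r → ℕ} (a : CoeffIdx n d → K) (φ : SqAlg K n →ₗ[K] K)
    (h : ∀ j T, φ (mono K n T * form a j) = 0) : ∀ y ∈ idealOf a, φ y = 0 := by
  have h2 : ∀ j z, φ (z * form a j) = 0 := by
    intro j z
    have hz : z ∈ Submodule.span K (Set.range (mono K n)) := by rw [span_mono]; trivial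
    induction hz using Submodule.span_induction with
    | mem x hx => obtain ⟨T, rfl⟩ := hx; exact h j T
    | zero => simp
    | add x y _ _ hx hy => rw [add_mul, map_add, hx, hy, add_zero]
    | smul c x _ hx => rw [smul_mul_assoc, map_smul, hx, smul_zero]
  intro y hy
  have key : ∀ z, φ (z * y) = 0 := by
    refine Submodule.span_induction (p := fun y _ => ∀ z, φ (z * y) = 0) ?_ ?_ ?_ ?_ hy
    · rintro _ ⟨j, rfl⟩ z
      exact h2 j z
    · intro z; simp
    · intro x y _ _ hx hy z
      rw [mul_add, map_add, hx, hy, add_zero]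
    · intro r x _ hx z
      rw [smul_eq_mul, ← mul_assoc]
      exact hx _
  simpa using key 1

/-- Over an infinite field two generic properties hold simultaneously somewhere. -/
theorem not_generic_of_generic_not [Infinite K] {r : ℕ} {d : Fin r → ℕ}
    {P : (CoeffIdx n d → K) → Prop} (h : Generic K n d (fun a => ¬ P a)) :
    ¬ Generic K n d P := by
  rintro ⟨g', hg', h'⟩
  obtain ⟨g, hg, h⟩ := h
  apply mul_ne_zero hg hg'
  refine MvPolynomial.funext fun a => ?_
  rw [map_mul, map_zero]
  by_contra hne
  exact h a (left_ne_zero_of_mul hne) (h' a (right_ne_zero_of_mul hne))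

end basics

end Pool.Agent.W488.SqFree
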