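import Pool.Agent.W488.SqFree.Basic

/-!
Coordinates and dimensions of the homogeneous components of the square-free algebra.
-/

namespace Pool.Agent.W488.SqFree

open MvPolynomial

variable {K : Type*} [Field K] {n : ℕ}

open Classical in
theorem exists_cf (s : Finset (Fin n)) :
    ∃ φ : SqAlg K n →ₗ[K] K, ∀ t, φ (mono K n t) = if t = s then 1 else 0 :=
  exists_functional _

/-- The coordinate of the square-free monomial `x^s`. -/
noncomputable def cf (s : Finset (Fin n)) : SqAlg K n →ₗ[K] K := (exists_cf s).choose

open Classical in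
theorem cf_mono (s t : Finset (Fin n)) : cf s (mono K n t) = if t = s then 1 else 0 :=
  (exists_cf s).choose_spec t

theorem eq_sum_cf (y : SqAlg K n) : y = ∑ s, cf s y • mono K n s := by
  classical
  have hy : y ∈ Submodule.span K (Set.range (mono K n)) := by rw [span_mono]; trivial
  induction hy using Submodule.span_induction with
  | mem x hx =>
    obtain ⟨t, rfl⟩ := hx
    rw [Finset.sum_eq_single t]
    · rw [cf_mono, if_pos rfl, one_smul]
    · intro s _ hs
      rw [cf_mono, if_neg hs.symm, zero_smul]
    · intro h; exact absurd (Finset.mem_univ t) h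
  | zero => simp
  | add x y _ _ hx hy =>
    simp only [map_add, add_smul, Finset.sum_add_distrib]
    rw [← hx, ← hy]
  | smul c x _ hx =>
    simp only [map_smul, smul_assoc]
    rw [← Finset.smul_sum, ← hx]

theorem linearIndependent_mono : LinearIndependent K (mono K n) := by
  classical
  rw [Fintype.linearIndependent_iff]
  intro g hg s
  have := congrArg (cf s) hg
  rw [map_sum, map_zero, Finset.sum_eq_single s] at this
  · rwa [map_smul, cf_mono, if_pos rfl, smul_eq_mul, mul_one] at this
  · intro t _ ht
    rw [map_smul, cf_mono, if_neg ht, smul_zero]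
  · intro h; exact absurd (Finset.mem_univ s) h

/-- The square-free monomials of degree `i`. -/
noncomputable def monoDeg (K : Type*) [Field K] (n i : ℕ) (s : {s : Finset (Fin n) // s.card = i}) : SqAlg K n :=
  mono K n s

theorem piece_eq_span (i : ℕ) : piece K n i = Submodule.span K (Set.range (monoDeg K n i)) := by
  classical
  apply le_antisymm
  · rintro _ ⟨p, hp, rfl⟩
    have hp' : p.IsHomogeneous i := hp
    rw [AlgHom.toLinearMap_apply, Ideal.Quotient.mkₐ_eq_mk, p.as_sum, map_sum]
    refine Submodule.sum_mem _ fun m hm => ?_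
    rw [mk_monomial]
    split_ifs with h
    · refine Submodule.smul_mem _ _ (Submodule.subset_span ⟨⟨m.support, ?_⟩, rfl⟩)
      have h1 : m.degree = i := by
        have := hp' (mem_support_iff.mp hm)
        rw [Finsupp.degree_eq_weight_one]
        exact this
      rw [← h1, Finsupp.degree_apply, Finset.card_eq_sum_ones]
      refine Finset.sum_congr rfl fun j hj => ?_
      exact (le_antisymm (h j) (Nat.one_le_iff_ne_zero.mpr (Finsupp.mem_support_iff.mp hj))).symm
    · exact Submodule.zero_mem _
  · rw [Submodule.span_le]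
    rintro _ ⟨⟨s, rfl⟩, rfl⟩
    exact mono_mem_piece s

theorem finrank_piece (i : ℕ) : Module.finrank K (piece K n i) = n.choose i := by
  classical
  rw [piece_eq_span]
  have : LinearIndependent K (monoDeg K n i) :=
    linearIndependent_mono.comp (fun s : {s : Finset (Fin n) // s.card = i} => (s : Finset (Fin n)))
      Subtype.val_injective
  rw [finrank_span_eq_card this]
  simp

theorem cf_eq_zero_of_mem_piece {i : ℕ} {y : SqAlg K n} (hy : y ∈ piece K n i)
    {s : Finset (Fin n)} (hs : s.card ≠ i) : cf s y = 0 := by
  classical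
  rw [piece_eq_span] at hy
  induction hy using Submodule.span_induction with
  | mem x hx =>
    obtain ⟨⟨t, ht⟩, rfl⟩ := hx
    rw [monoDeg, cf_mono, if_neg]
    rintro rfl
    exact hs ht
  | zero => simp
  | add x y _ _ hx hy => rw [map_add, hx, hy, add_zero]
  | smul c x _ hx => rw [map_smul, hx, smul_zero]

theorem mem_piece_of_cf {i : ℕ} {y : SqAlg K n} (hy : ∀ s : Finset (Fin n), s.card ≠ i → cf s y = 0) :
    y ∈ piece K n i := by
  rw [eq_sum_cf y]
  refine Submodule.sum_mem _ fun s _ => ?_
  by_cases hs : s.card = i
  · exact Submodule.smul_mem _ _ (hs ▸ mono_mem_piece s)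
  · rw [hy s hs, zero_smul]; exact Submodule.zero_mem _

theorem mul_mem_piece {i j : ℕ} {x y : SqAlg K n} (hx : x ∈ piece K n i) (hy : y ∈ piece K n j) :
    x * y ∈ piece K n (i + j) := by
  obtain ⟨p, hp, rfl⟩ := hx
  obtain ⟨q, hq, rfl⟩ := hy
  refine ⟨p * q, ?_, by simp⟩
  exact IsHomogeneous.mul hp hq

theorem form_mem_piece {r : ℕ} {d : Fin r → ℕ} (a : CoeffIdx n d → K) (j : Fin r) :
    form a j ∈ piece K n (d j) := by
  refine Submodule.sum_mem _ fun s _ => Submodule.smul_mem _ _ ?_
  have := mono_mem_piece (K := K) (s : Finset (Fin n))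
  rwa [s.2] at this

theorem pow_mem_piece {i : ℕ} {x : SqAlg K n} (hx : x ∈ piece K n i) (e : ℕ) :
    x ^ e ∈ piece K n (e * i) := by
  induction e with
  | zero =>
    have := mono_mem_piece (K := K) (∅ : Finset (Fin n))
    simpa [mono] using this
  | succ e ih =>
    rw [pow_succ, add_mul, one_mul]
    exact mul_mem_piece ih hx

/-- Degree components: if `f` is homogeneous of degree `d` and `f z` is homogeneous of degree
`d + i` then `f z = f z'` with `z'` homogeneous of degree `i`. -/
theorem exists_homogeneous_cofactor {d i : ℕ} {f z : SqAlg K n} (hf : f ∈ piece K n d)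
    (hz : f * z ∈ piece K n (d + i)) : ∃ z' ∈ piece K n i, f * z' = f * z := by
  classical
  refine ⟨∑ s ∈ Finset.univ.filter (fun s : Finset (Fin n) => s.card = i), cf s z • mono K n s, ?_, ?_⟩
  · refine Submodule.sum_mem _ fun s hs => Submodule.smul_mem _ _ ?_
    rw [← (Finset.mem_filter.mp hs).2]
    exact mono_mem_piece s
  · have hzz : f * z = f * (∑ s ∈ Finset.univ.filter (fun s : Finset (Fin n) => s.card = i), cf s z • mono K n s) +
        f * (∑ s ∈ Finset.univ.filter (fun s : Finset (Fin n) => ¬ s.card = i), cf s z • mono K n s) := by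
      rw [← mul_add, Finset.sum_filter_add_sum_filter_not, ← eq_sum_cf]
    have hmem : f * (∑ s ∈ Finset.univ.filter (fun s : Finset (Fin n) => ¬ s.card = i), cf s z • mono K n s) ∈
        piece K n (d + i) := by
      have h1 : f * (∑ s ∈ Finset.univ.filter (fun s : Finset (Fin n) => ¬ s.card = i), cf s z • mono K n s) =
        f * z - f * (∑ s ∈ Finset.univ.filter (fun s : Finset (Fin n) => s.card = i), cf s z • mono K n s) := by
        rw [hzz]; ring
      rw [h1]
      refine Submodule.sub_mem _ hz (mul_mem_piece hf ?_)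
      refine Submodule.sum_mem _ fun s hs => Submodule.smul_mem _ _ ?_
      rw [← (Finset.mem_filter.mp hs).2]
      exact mono_mem_piece s
    have hzero : f * (∑ s ∈ Finset.univ.filter (fun s : Finset (Fin n) => ¬ s.card = i), cf s z • mono K n s) = 0 := by
      rw [eq_sum_cf (f * (∑ s ∈ Finset.univ.filter (fun s : Finset (Fin n) => ¬ s.card = i), cf s z • mono K n s))]
      refine Finset.sum_eq_zero fun t _ => ?_
      by_cases ht : t.card = d + i
      · rw [Finset.mul_sum, map_sum]
        rw [Finset.sum_eq_zero, zero_smul]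
        intro s hs
        have hs' := (Finset.mem_filter.mp hs).2
        rw [mul_smul_comm, map_smul, cf_eq_zero_of_mem_piece (mul_mem_piece hf (mono_mem_piece s)),
          smul_zero]
        omega
      · rw [cf_eq_zero_of_mem_piece hmem ht, zero_smul]
    rw [hzz, hzero, add_zero]

/-- Lower bound for the Hilbert function of the quotient by one form `f` of degree `d` when
multiplication by `f` is not injective on the component of degree `i`. -/
theorem coeff_hilbert_of_not_injective {d i : ℕ} (f h : SqAlg K n) (hf : f ∈ piece K n d)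
    (hh : h ∈ piece K n i) (hne : h ≠ 0) (hfh : f * h = 0) :
    ((n.choose (d + i) : ℤ) - n.choose i) + 1 ≤
      PowerSeries.coeff (d + i) (hilbertSeries (Ideal.span {f})) := by
  classical
  rw [hilbertSeries, PowerSeries.coeff_mk]
  set I : Ideal (SqAlg K n) := Ideal.span {f} with hI
  set q : SqAlg K n →ₗ[K] (SqAlg K n ⧸ I) := (Ideal.Quotient.mkₐ K I).toLinearMap with hq
  set P := piece K n (d + i) with hP
  -- rank nullity for `q` restricted to `P`
  have h1 := LinearMap.finrank_range_add_finrank_ker (q.domRestrict P)
  rw [LinearMap.range_domRestrict, finrank_piece] at h1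
  -- the multiplication map
  let μ : piece K n i →ₗ[K] SqAlg K n := (LinearMap.mulLeft K f).domRestrict (piece K n i)
  have h2 := LinearMap.finrank_range_add_finrank_ker μ
  rw [finrank_piece] at h2
  have h3 : 0 < Module.finrank K (LinearMap.ker μ) := by
    refine Nat.pos_of_ne_zero fun h0 => ?_
    have hbot := Submodule.finrank_eq_zero.mp h0
    have : (⟨h, hh⟩ : piece K n i) ∈ LinearMap.ker μ := by
      rw [LinearMap.mem_ker]
      exact hfh
    rw [hbot, Submodule.mem_bot] at this
    exact hne (congrArg Subtype.val this)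
  have h4 : Module.finrank K (LinearMap.ker (q.domRestrict P)) ≤ Module.finrank K (LinearMap.range μ) := by
    rw [← LinearMap.finrank_range_of_inj (f := P.subtype ∘ₗ (LinearMap.ker (q.domRestrict P)).subtype)
      (Subtype.val_injective.comp Subtype.val_injective)]
    refine Submodule.finrank_mono ?_
    rintro _ ⟨⟨⟨y, hyP⟩, hy⟩, rfl⟩
    have hy' : y ∈ I := by
      have : q y = 0 := hy
      exact Ideal.Quotient.eq_zero_iff_mem.mp this
    obtain ⟨z, hz⟩ := Ideal.mem_span_singleton.mp hy'
    obtain ⟨z', hz', hzz⟩ := exists_homogeneous_cofactor (i := i) hf (by rw [← hz]; exact hyP)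
    refine ⟨⟨z', hz'⟩, ?_⟩
    change f * z' = y
    rw [hzz, hz]
  omega

end Pool.Agent.W488.SqFree
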